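import Pool.Agent.H10.GWNil.Wedge

/-!
# The wedge product of three two-forms in the left invariant frame
-/

open scoped ContDiff
open MeasureTheory

namespace Pool.Agent.H10.GWNil

open Pool.Agent.H64.GW.Nil

theorem update_pair_zero {ι : Type*} (x y z : ι) :
    Function.update ![x, y] 0 z = ![z, y] := by
  funext i
  refine Fin.cases ?_ (fun i => ?_) i <;> simp

theorem update_pair_one {ι : Type*} (x y z : ι) :
    Function.update ![x, y] 1 z = ![x, z] := by
  funext i
  rcases (by decide : ∀ i : Fin 2, i = 0 ∨ i = 1) i with rfl | rfl <;> simp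

theorem form2_add_left (a : G [⋀^Fin 2]→L[ℝ] ℂ) (x y z : G) :
    a ![x + y, z] = a ![x, z] + a ![y, z] := by
  have h := a.map_update_add ![x, z] 0 x y
  rwa [update_pair_zero, update_pair_zero, update_pair_zero] at h

theorem form2_add_right (a : G [⋀^Fin 2]→L[ℝ] ℂ) (x y z : G) :
    a ![x, y + z] = a ![x, y] + a ![x, z] := by
  have h := a.map_update_add ![x, y] 1 y z
  rwa [update_pair_one, update_pair_one, update_pair_one] at h

theorem form2_smul_left (a : G [⋀^Fin 2]→L[ℝ] ℂ) (c : ℝ) (x y : G) :
    a ![c • x, y] = c • a ![x, y] := by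
  have h := a.map_update_smul ![x, y] 0 c x
  rwa [update_pair_zero, update_pair_zero] at h

theorem form2_smul_right (a : G [⋀^Fin 2]→L[ℝ] ℂ) (c : ℝ) (x y : G) :
    a ![x, c • y] = c • a ![x, y] := by
  have h := a.map_update_smul ![x, y] 1 c y
  rwa [update_pair_one, update_pair_one] at h

theorem form2_anti (a : G [⋀^Fin 2]→L[ℝ] ℂ) (x y : G) :
    a ![x, y] = -a ![y, x] := by
  have h := a.map_swap ![y, x] (i := 0) (j := 1) (by decide)
  have e : (![y, x] ∘ (Equiv.swap (0 : Fin 2) 1)) = ![x, y] := by
    funext i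
    rcases (by decide : ∀ i : Fin 2, i = 0 ∨ i = 1) i with rfl | rfl <;> simp
  rw [e] at h
  exact h

theorem fin_six_cases : ∀ i : Fin 6, i = 0 ∨ i = 1 ∨ i = 2 ∨ i = 3 ∨ i = 4 ∨ i = 5 := by
  decide

/-- The multilinear map whose alternatization is eight times the wedge product. -/
noncomputable def mult (a b c : G [⋀^Fin 2]→L[ℝ] ℂ) :
    MultilinearMap ℝ (fun _ : Fin 6 => G) ℂ where
  toFun v := a ![v 0, v 1] * (b ![v 2, v 3] * c ![v 4, v 5])
  map_update_add' := by
    intro inst v i x y
    obtain rfl : inst = instDecidableEqFin 6 := Subsingleton.elim _ _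
    rcases fin_six_cases i with rfl | rfl | rfl | rfl | rfl | rfl <;>
      simp [form2_add_left, form2_add_right] <;> ring
  map_update_smul' := by
    intro inst v i r x
    obtain rfl : inst = instDecidableEqFin 6 := Subsingleton.elim _ _
    rcases fin_six_cases i with rfl | rfl | rfl | rfl | rfl | rfl <;>
      simp [form2_smul_left, form2_smul_right] <;> ring

theorem mult_apply (a b c : G [⋀^Fin 2]→L[ℝ] ℂ) (v : Fin 6 → G) :
    mult a b c v = a ![v 0, v 1] * (b ![v 2, v 3] * c ![v 4, v 5]) := rfl

/-- The sum over the permutations is the explicit expression `W`. -/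
theorem alternatization_mult (a b c : G [⋀^Fin 2]→L[ℝ] ℂ) (v : Fin 6 → G) :
    MultilinearMap.alternatization (mult a b c) v
      = 8 * W (fun x y => a ![x, y]) (fun x y => b ![x, y]) (fun x y => c ![x, y]) v := by
  rw [MultilinearMap.alternatization_apply, ← sum_perm_six v _ _ _ (form2_anti a) (form2_anti b)
    (form2_anti c)]
  refine Finset.sum_congr rfl fun σ _ => ?_
  rw [MultilinearMap.domDomCongr_apply, mult_apply]
  simp [Units.smul_def]

theorem wedge_eq_std (a b c : G [⋀^Fin 2]→L[ℝ] ℂ) :
    wedge a b c = W (fun x y => a ![x, y]) (fun x y => b ![x, y]) (fun x y => c ![x, y])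
      (fun i => Pi.single i 1) := by
  have h := sum_perm_six (fun i : Fin 6 => (Pi.single i 1 : G)) _ _ _ (form2_anti a)
    (form2_anti b) (form2_anti c)
  unfold wedge
  rw [mul_comm, ← div_eq_mul_one_div, div_eq_iff (by norm_num), mul_comm _ (8 : ℂ), ← h]
  refine Finset.sum_congr rfl fun σ _ => ?_
  ring

/-- An alternating map in as many variables as the dimension is determined by its value on a
basis. -/
theorem alt_eq_det (f : G [⋀^Fin 6]→ₗ[ℝ] ℂ) (v : Fin 6 → G) :
    f v = ((Matrix.det (v : Matrix (Fin 6) (Fin 6) ℝ) : ℝ) : ℂ) * f (fun i => Pi.single i 1) := by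
  have key : f = (LinearMap.toSpanSingleton ℝ ℂ (f (fun i => Pi.single i 1))).compAlternatingMap
      (Pi.basisFun ℝ (Fin 6)).det := by
    refine Module.Basis.ext_alternating (Pi.basisFun ℝ (Fin 6)) fun i h => ?_
    let σ : Equiv.Perm (Fin 6) := Equiv.ofBijective i (Finite.injective_iff_bijective.1 h)
    change f ((Pi.basisFun ℝ (Fin 6)) ∘ σ)
      = ((LinearMap.toSpanSingleton ℝ ℂ (f (fun i => Pi.single i 1))).compAlternatingMap
      (Pi.basisFun ℝ (Fin 6)).det) ((Pi.basisFun ℝ (Fin 6)) ∘ σ)
    rw [AlternatingMap.map_perm, AlternatingMap.map_perm, LinearMap.compAlternatingMap_apply,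
      Module.Basis.det_self, LinearMap.toSpanSingleton_apply, one_smul]
    congr 2
    funext i
    simp
  conv_lhs => rw [key]
  rw [LinearMap.compAlternatingMap_apply, Pi.basisFun_det_apply,
    LinearMap.toSpanSingleton_apply, Complex.real_smul]
  rfl

theorem det_X (x : G) : Matrix.det (fun i j : Fin 6 => X (i : ℕ) x j : Matrix (Fin 6) (Fin 6) ℝ)
    = 1 := by
  rw [Matrix.det_of_isUpperTriangular]
  · refine Finset.prod_eq_one fun i _ => ?_
    rcases fin_six_cases i with rfl | rfl | rfl | rfl | rfl | rfl <;> simp [X]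
  · intro i j hij
    simp only [id] at hij
    show X (i : ℕ) x j = 0
    unfold X
    by_cases hi : (i : ℕ) = 0
    · exfalso
      have : (j : ℕ) < (i : ℕ) := hij
      omega
    · have h1 : ¬ (i : ℕ) ≤ (j : ℕ) := by
        have : (j : ℕ) < (i : ℕ) := hij
        omega
      rw [if_neg hi, if_neg h1]

/-- The wedge product of three two-forms, computed in the frame. -/
theorem wedge_eq_frame (a b c : G [⋀^Fin 2]→L[ℝ] ℂ) (x : G) :
    wedge a b c = W (fun y z => a ![y, z]) (fun y z => b ![y, z]) (fun y z => c ![y, z])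
      (fun i : Fin 6 => X (i : ℕ) x) := by
  have h := alt_eq_det (MultilinearMap.alternatization (mult a b c))
    (fun i : Fin 6 => X (i : ℕ) x)
  rw [alternatization_mult, alternatization_mult, det_X] at h
  rw [wedge_eq_std]
  have h8 : (8 : ℂ) ≠ 0 := by norm_num
  apply mul_left_cancel₀ h8
  rw [h]
  simp

/-- The wedge product of three two-forms in terms of their coefficients in the frame. -/
theorem wedge_eq_coef (a b c : G [⋀^Fin 2]→L[ℝ] ℂ) (x : G) :
    wedge a b c = W (fun i j : ℕ => a ![X i x, X j x]) (fun i j => b ![X i x, X j x])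
      (fun i j => c ![X i x, X j x]) (fun i : Fin 6 => (i : ℕ)) :=
  wedge_eq_frame a b c x

end Pool.Agent.H10.GWNil
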