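import Pool.Agent.H10.GWNil.Stokes

/-!
# The cubic form: symmetry, multilinearity, and its values on left invariant forms
-/

open scoped ContDiff
open MeasureTheory

namespace Pool.Agent.H10.GWNil

open Pool.Agent.H64.GW.Nil

theorem wedge_swap_left (a b c : G [⋀^Fin 2]→L[ℝ] ℂ) : wedge a b c = wedge b a c := by
  rw [wedge_eq_std, wedge_eq_std]
  unfold W R
  ring

theorem wedge_swap_right (a b c : G [⋀^Fin 2]→L[ℝ] ℂ) : wedge a b c = wedge a c b := by
  rw [wedge_eq_std, wedge_eq_std]
  unfold W R
  ring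

theorem wedge_add_left (a a' b c : G [⋀^Fin 2]→L[ℝ] ℂ) :
    wedge (a + a') b c = wedge a b c + wedge a' b c := by
  rw [wedge_eq_std, wedge_eq_std, wedge_eq_std]
  unfold W R
  simp only [ContinuousAlternatingMap.add_apply]
  ring

theorem wedge_smul_left (r : ℂ) (a b c : G [⋀^Fin 2]→L[ℝ] ℂ) :
    wedge (r • a) b c = r * wedge a b c := by
  rw [wedge_eq_std, wedge_eq_std]
  unfold W R
  simp only [ContinuousAlternatingMap.smul_apply, smul_eq_mul]
  ring

/-- The integral of the product of three two-forms is symmetric. -/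
theorem integral_swap_left (α β γ : Form 2) : integral α β γ = integral β α γ := by
  unfold Pool.Agent.H64.GW.Nil.integral
  congr 1
  funext x
  rw [wedge_swap_left]

theorem integral_swap_right (α β γ : Form 2) : integral α β γ = integral α γ β := by
  unfold Pool.Agent.H64.GW.Nil.integral
  congr 1
  funext x
  rw [wedge_swap_right]

theorem integral_symm (α β γ : Form 2) :
    integral α β γ = integral β α γ ∧ integral α β γ = integral α γ β :=
  ⟨integral_swap_left α β γ, integral_swap_right α β γ⟩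

theorem continuous_wedge {α β γ : Form 2} (hα : Continuous α) (hβ : Continuous β)
    (hγ : Continuous γ) : Continuous fun x => wedge (α x) (β x) (γ x) := by
  unfold wedge
  have h : ∀ {η : Form 2}, Continuous η → ∀ v, Continuous fun x => η x v :=
    fun hη v => hη.eval_const v
  refine continuous_const.mul (continuous_finsetSum _ fun σ _ => ?_)
  exact ((continuous_const.mul (h hα _)).mul (h hβ _)).mul (h hγ _)

theorem integrableOn_wedge {α β γ : Form 2} (hα : α ∈ Ω 2) (hβ : β ∈ Ω 2) (hγ : γ ∈ Ω 2) :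
    IntegrableOn (fun x => wedge (α x) (β x) (γ x)) (Set.Icc (0 : G) 1) :=
  (continuous_wedge hα.1.continuous hβ.1.continuous hγ.1.continuous).integrableOn_Icc

theorem integral_add_left {α α' β γ : Form 2} (hα : α ∈ Ω 2) (hα' : α' ∈ Ω 2) (hβ : β ∈ Ω 2)
    (hγ : γ ∈ Ω 2) : integral (α + α') β γ = integral α β γ + integral α' β γ := by
  unfold Pool.Agent.H64.GW.Nil.integral
  rw [← MeasureTheory.integral_add (integrableOn_wedge hα hβ hγ) (integrableOn_wedge hα' hβ hγ)]
  congr 1
  funext x
  exact wedge_add_left _ _ _ _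

theorem integral_add_mid {α β β' γ : Form 2} (hα : α ∈ Ω 2) (hβ : β ∈ Ω 2) (hβ' : β' ∈ Ω 2)
    (hγ : γ ∈ Ω 2) : integral α (β + β') γ = integral α β γ + integral α β' γ := by
  rw [integral_swap_left α (β + β') γ, integral_swap_left α β γ, integral_swap_left α β' γ]
  exact integral_add_left hβ hβ' hα hγ

theorem integral_add_right {α β γ γ' : Form 2} (hα : α ∈ Ω 2) (hβ : β ∈ Ω 2) (hγ : γ ∈ Ω 2)
    (hγ' : γ' ∈ Ω 2) : integral α β (γ + γ') = integral α β γ + integral α β γ' := by
  rw [integral_swap_right α β (γ + γ'), integral_swap_right α β γ, integral_swap_right α β γ']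
  exact integral_add_mid hα hγ hγ' hβ

theorem integral_smul_left (r : ℂ) (α β γ : Form 2) :
    integral (r • α) β γ = r * integral α β γ := by
  unfold Pool.Agent.H64.GW.Nil.integral
  rw [← MeasureTheory.integral_const_mul]
  congr 1
  funext x
  exact wedge_smul_left _ _ _ _

theorem integral_smul_mid (r : ℂ) (α β γ : Form 2) :
    integral α (r • β) γ = r * integral α β γ := by
  rw [integral_swap_left α (r • β) γ, integral_swap_left α β γ, integral_smul_left]

theorem integral_smul_right (r : ℂ) (α β γ : Form 2) :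
    integral α β (r • γ) = r * integral α β γ := by
  rw [integral_swap_right α β (r • γ), integral_swap_right α β γ, integral_smul_mid]

/-- The relations satisfied by the coefficients of a left invariant closed two-form. -/
structure ConstClosed (a : ℕ → ℕ → ℂ) : Prop where
  anti : ∀ i j, a i j = -a j i
  zero : ∀ i j, 6 ≤ j → a i j = 0
  closed : ∀ j k, 1 ≤ j → 1 ≤ k → a (j + 1) k + a j (k + 1) = 0

theorem ConstClosed.rel {a : ℕ → ℕ → ℂ} (h : ConstClosed a) :
    a 4 5 = 0 ∧ a 3 5 = 0 ∧ a 2 5 = 0 ∧ a 3 4 = 0 ∧ a 2 4 = 0 ∧ a 1 5 = 0 ∧ a 1 3 = 0 ∧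
      a 1 4 = -a 2 3 := by
  have d : ∀ i, a i i = 0 := fun i => by
    have := h.anti i i
    linear_combination (1 / 2 : ℂ) * this
  have z : ∀ i, a i 6 = 0 := fun i => h.zero i 6 le_rfl
  have h35 := h.closed 3 5 (by norm_num) (by norm_num)
  have h25 := h.closed 2 5 (by norm_num) (by norm_num)
  have h15 := h.closed 1 5 (by norm_num) (by norm_num)
  have h24 := h.closed 2 4 (by norm_num) (by norm_num)
  have h14 := h.closed 1 4 (by norm_num) (by norm_num)
  have h23 := h.closed 2 3 (by norm_num) (by norm_num)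
  have h13 := h.closed 1 3 (by norm_num) (by norm_num)
  have h12 := h.closed 1 2 (by norm_num) (by norm_num)
  norm_num at h35 h25 h15 h24 h14 h23 h13 h12
  rw [z] at h35 h25 h15
  rw [d] at h23 h12
  have e45 : a 4 5 = 0 := by linear_combination h35
  have e35 : a 3 5 = 0 := by linear_combination h25
  have e25 : a 2 5 = 0 := by linear_combination h15
  have e34 : a 3 4 = 0 := by linear_combination h24 - e25
  have e24 : a 2 4 = 0 := by linear_combination h23
  have e15 : a 1 5 = 0 := by linear_combination h14 - e24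
  have e13 : a 1 3 = 0 := by linear_combination h12
  exact ⟨e45, e35, e25, e34, e24, e15, e13, by linear_combination h13⟩

theorem W6_const {a b c : ℕ → ℕ → ℂ} (ha : ConstClosed a) (hb : ConstClosed b)
    (hc : ConstClosed c) :
    W6 a b c = -2 * (a 0 5 * b 2 3 * c 2 3 + a 2 3 * b 0 5 * c 2 3 + a 2 3 * b 2 3 * c 0 5) := by
  obtain ⟨a45, a35, a25, a34, a24, a15, a13, a14⟩ := ha.rel
  obtain ⟨b45, b35, b25, b34, b24, b15, b13, b14⟩ := hb.rel
  obtain ⟨c45, c35, c25, c34, c24, c15, c13, c14⟩ := hc.rel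
  unfold W6 R
  rw [a45, a35, a25, a34, a24, a15, a13, a14, b45, b35, b25, b34, b24, b15, b13, b14,
    c45, c35, c25, c34, c24, c15, c13, c14]
  ring

/-- The value of the cubic form on left invariant forms. -/
theorem integral_const_of {α β γ : Form 2} {a b c : ℕ → ℕ → ℂ}
    (ha : ∀ i j x, α x ![X i x, X j x] = a i j) (hb : ∀ i j x, β x ![X i x, X j x] = b i j)
    (hc : ∀ i j x, γ x ![X i x, X j x] = c i j)
    (ha' : ConstClosed a) (hb' : ConstClosed b) (hc' : ConstClosed c) :
    integral α β γ
      = -2 * (a 0 5 * b 2 3 * c 2 3 + a 2 3 * b 0 5 * c 2 3 + a 2 3 * b 2 3 * c 0 5) := by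
  have h : ∀ x, wedge (α x) (β x) (γ x)
      = -2 * (a 0 5 * b 2 3 * c 2 3 + a 2 3 * b 0 5 * c 2 3 + a 2 3 * b 2 3 * c 0 5) := by
    intro x
    rw [wedge_eq_coef _ _ _ x, W_eq_W6]
    simp only [ha, hb, hc]
    exact W6_const ha' hb' hc'
  unfold Pool.Agent.H64.GW.Nil.integral
  simp only [h]
  rw [MeasureTheory.setIntegral_const]
  have hv : (volume : Measure G).real (Set.Icc (0 : G) 1) = 1 := by
    rw [Measure.real, Real.volume_Icc_pi]
    simp
  rw [hv, one_smul]

/-- Stokes' theorem: the integral of the product of an exact form with two closed forms is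
zero. -/
theorem integral_exact_of
    (hint : ∀ {f : G → ℂ}, f ∈ Fn → ∀ k, ∫ x in Set.Icc (0 : G) 1, D k f x = 0)
    {β : Form 1} {γ δ : Form 2} (hb : ∀ i, (fun x => β x ![X i x]) ∈ Fn)
    (hdd : ∀ i j x, extDeriv β x ![X i x, X j x] = dd (fun i x => β x ![X i x]) i j x)
    (hγ : Closed fun i j x => γ x ![X i x, X j x])
    (hδ : Closed fun i j x => δ x ![X i x, X j x]) :
    integral (extDeriv β) γ δ = 0 := by
  have h : ∀ x, wedge (extDeriv β x) (γ x) (δ x)
      = W6 (fun i j => dd (fun i x => β x ![X i x]) i j x)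
        (fun i j => γ x ![X i x, X j x]) (fun i j => δ x ![X i x, X j x]) := by
    intro x
    rw [wedge_eq_coef _ _ _ x, W_eq_W6]
    simp only [hdd]
  unfold Pool.Agent.H64.GW.Nil.integral
  simp only [h]
  refine integral_W6_dd hint hb ?_ hγ hδ
  funext x
  have hX : X 6 x = 0 := by
    funext j
    unfold X
    have : ¬ 6 ≤ (j : ℕ) := by omega
    simp [this]
  show β x ![X 6 x] = 0
  rw [hX]
  exact (β x).map_coord_zero 0 (by simp)

end Pool.Agent.H10.GWNil
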