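import Pool.Agent.H10.GWNil.Integral
import Pool.Agent.H95.GWNil.Forms
import Pool.Agent.H55.GWNil.Stokes

/-!
# The cubic form on the second cohomology of the nilmanifold
-/

open scoped ContDiff
open MeasureTheory

namespace Pool.Agent.H10.GWNil

open Pool.Agent.H64.GW.Nil

/-- Stokes' theorem: the integral of the product of an exact form with two closed forms is
zero. -/
theorem integral_exact {β : Form 1} {γ δ : Form 2} (hβ : β ∈ Ω 1) (hγ : γ ∈ Z2) (hδ : δ ∈ Z2) :
    integral (extDeriv β) γ δ = 0 :=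
  integral_exact_of (fun hf k => Pool.Agent.H55.GWNil.integral_D hf k)
    (Pool.Agent.H95.GWNil.coef_one hβ) (Pool.Agent.H95.GWNil.coef_extDeriv hβ)
    (Pool.Agent.H95.GWNil.coef_closed hγ) (Pool.Agent.H95.GWNil.coef_closed hδ)

theorem constClosed_of {α : Form 2} {a : ℕ → ℕ → ℂ} (hα : α ∈ Z2)
    (ha : ∀ i j x, α x ![X i x, X j x] = a i j) : ConstClosed a := by
  have h := Pool.Agent.H95.GWNil.coef_closed hα
  have e : (fun i j x => α x ![X i x, X j x]) = fun i j _ => a i j := by
    funext i j x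
    exact ha i j x
  rw [e] at h
  have hD : ∀ k (c : ℂ) x, D k (fun _ => c) x = 0 := by
    intro k c x
    unfold D
    rw [fderiv_fun_const]
    rfl
  refine ⟨fun i j => h.anti i j 0, fun i j hj => congrFun (h.zero i j hj) 0, fun j k hj hk => ?_⟩
  have := h.closed₀ j k hj hk 0
  rw [hD, hD, hD] at this
  linear_combination this

/-- The value of the cubic form on left invariant closed forms. -/
theorem integral_const {α β γ : Form 2} {a b c : ℕ → ℕ → ℂ} (hα : α ∈ Z2) (hβ : β ∈ Z2)
    (hγ : γ ∈ Z2) (ha : ∀ i j x, α x ![X i x, X j x] = a i j)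
    (hb : ∀ i j x, β x ![X i x, X j x] = b i j) (hc : ∀ i j x, γ x ![X i x, X j x] = c i j) :
    integral α β γ
      = -2 * (a 0 5 * b 2 3 * c 2 3 + a 2 3 * b 0 5 * c 2 3 + a 2 3 * b 2 3 * c 0 5) :=
  integral_const_of ha hb hc (constClosed_of hα ha) (constClosed_of hβ hb) (constClosed_of hγ hc)

end Pool.Agent.H10.GWNil
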