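import Pool.Agent.H10.GWNil.Wedge

/-!
# The algebraic part of Stokes' theorem in the frame
-/

namespace Pool.Agent.H10.GWNil

open Pool.Agent.H64.GW.Nil

/-- The wedge product of three two-forms, in coefficients indexed by natural numbers. -/
def W6 (a b c : ℕ → ℕ → ℂ) : ℂ :=
  a 0 1 * R b c 2 3 4 5
    - a 0 2 * R b c 1 3 4 5
    + a 0 3 * R b c 1 2 4 5
    - a 0 4 * R b c 1 2 3 5
    + a 0 5 * R b c 1 2 3 4
    + a 1 2 * R b c 0 3 4 5
    - a 1 3 * R b c 0 2 4 5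
    + a 1 4 * R b c 0 2 3 5
    - a 1 5 * R b c 0 2 3 4
    + a 2 3 * R b c 0 1 4 5
    - a 2 4 * R b c 0 1 3 5
    + a 2 5 * R b c 0 1 3 4
    + a 3 4 * R b c 0 1 2 5
    - a 3 5 * R b c 0 1 2 4
    + a 4 5 * R b c 0 1 2 3

theorem W_eq_W6 (a b c : ℕ → ℕ → ℂ) : W a b c (fun i : Fin 6 => (i : ℕ)) = W6 a b c := rfl

/-- The wedge product of a one-form and two two-forms. -/
def Q5 (b : ℕ → ℂ) (g h : ℕ → ℕ → ℂ) (i j k l m : ℕ) : ℂ :=
  b i * R g h j k l m - b j * R g h i k l m + b k * R g h i j l m - b l * R g h i j k m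
    + b m * R g h i j k l

set_option maxHeartbeats 4000000 in
/-- The Leibniz rule for the exterior derivative of the five-form `b ∧ g ∧ h` with `g` and `h`
closed, in the frame. -/
theorem stokes_alg (B : ℕ → ℂ) (DB : ℕ → ℕ → ℂ) (g h : ℕ → ℕ → ℂ) (Dg Dh : ℕ → ℕ → ℕ → ℂ)
    (b6 : B 6 = 0)
    (gd : ∀ i, g i i = 0) (gz : ∀ i j, 6 ≤ j → g i j = 0)
    (g0 : ∀ j k, 1 ≤ j → 1 ≤ k → Dg 0 j k - Dg j 0 k + Dg k 0 j + g (j + 1) k + g j (k + 1) = 0)
    (g1 : ∀ i j k, 1 ≤ i → 1 ≤ j → 1 ≤ k → Dg i j k - Dg j i k + Dg k i j = 0)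
    (hd : ∀ i, h i i = 0) (hz : ∀ i j, 6 ≤ j → h i j = 0)
    (h0 : ∀ j k, 1 ≤ j → 1 ≤ k → Dh 0 j k - Dh j 0 k + Dh k 0 j + h (j + 1) k + h j (k + 1) = 0)
    (h1 : ∀ i j k, 1 ≤ i → 1 ≤ j → 1 ≤ k → Dh i j k - Dh j i k + Dh k i j = 0) :
    W6 (fun i j => DB i j - DB j i + (if i = 0 ∧ 1 ≤ j then B (j + 1) else 0) - (if j = 0 ∧ 1 ≤ i then B (i + 1) else 0)) g h =
      (Q5 (DB 0) g h 1 2 3 4 5 + Q5 B (Dg 0) h 1 2 3 4 5 + Q5 B g (Dh 0) 1 2 3 4 5)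
      - (Q5 (DB 1) g h 0 2 3 4 5 + Q5 B (Dg 1) h 0 2 3 4 5 + Q5 B g (Dh 1) 0 2 3 4 5)
      + (Q5 (DB 2) g h 0 1 3 4 5 + Q5 B (Dg 2) h 0 1 3 4 5 + Q5 B g (Dh 2) 0 1 3 4 5)
      - (Q5 (DB 3) g h 0 1 2 4 5 + Q5 B (Dg 3) h 0 1 2 4 5 + Q5 B g (Dh 3) 0 1 2 4 5)
      + (Q5 (DB 4) g h 0 1 2 3 5 + Q5 B (Dg 4) h 0 1 2 3 5 + Q5 B g (Dh 4) 0 1 2 3 5)
      - (Q5 (DB 5) g h 0 1 2 3 4 + Q5 B (Dg 5) h 0 1 2 3 4 + Q5 B g (Dh 5) 0 1 2 3 4) := by
  have cg012 : Dg 0 1 2 - Dg 1 0 2 + Dg 2 0 1 + g 1 3 = 0 := by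
    have := g0 1 2 (by norm_num) (by norm_num)
    norm_num at this
    rw [gd 2] at this
    linear_combination this
  have cg013 : Dg 0 1 3 - Dg 1 0 3 + Dg 3 0 1 + g 2 3 + g 1 4 = 0 := by
    have := g0 1 3 (by norm_num) (by norm_num)
    norm_num at this
    linear_combination this
  have cg014 : Dg 0 1 4 - Dg 1 0 4 + Dg 4 0 1 + g 2 4 + g 1 5 = 0 := by
    have := g0 1 4 (by norm_num) (by norm_num)
    norm_num at this
    linear_combination this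
  have cg015 : Dg 0 1 5 - Dg 1 0 5 + Dg 5 0 1 + g 2 5 = 0 := by
    have := g0 1 5 (by norm_num) (by norm_num)
    norm_num at this
    rw [gz 1 6 (by norm_num)] at this
    linear_combination this
  have cg023 : Dg 0 2 3 - Dg 2 0 3 + Dg 3 0 2 + g 2 4 = 0 := by
    have := g0 2 3 (by norm_num) (by norm_num)
    norm_num at this
    rw [gd 3] at this
    linear_combination this
  have cg024 : Dg 0 2 4 - Dg 2 0 4 + Dg 4 0 2 + g 3 4 + g 2 5 = 0 := by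
    have := g0 2 4 (by norm_num) (by norm_num)
    norm_num at this
    linear_combination this
  have cg025 : Dg 0 2 5 - Dg 2 0 5 + Dg 5 0 2 + g 3 5 = 0 := by
    have := g0 2 5 (by norm_num) (by norm_num)
    norm_num at this
    rw [gz 2 6 (by norm_num)] at this
    linear_combination this
  have cg034 : Dg 0 3 4 - Dg 3 0 4 + Dg 4 0 3 + g 3 5 = 0 := by
    have := g0 3 4 (by norm_num) (by norm_num)
    norm_num at this
    rw [gd 4] at this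
    linear_combination this
  have cg035 : Dg 0 3 5 - Dg 3 0 5 + Dg 5 0 3 + g 4 5 = 0 := by
    have := g0 3 5 (by norm_num) (by norm_num)
    norm_num at this
    rw [gz 3 6 (by norm_num)] at this
    linear_combination this
  have cg045 : Dg 0 4 5 - Dg 4 0 5 + Dg 5 0 4 = 0 := by
    have := g0 4 5 (by norm_num) (by norm_num)
    norm_num at this
    rw [gd 5] at this
    rw [gz 4 6 (by norm_num)] at this
    linear_combination this
  have cg123 : Dg 1 2 3 - Dg 2 1 3 + Dg 3 1 2 = 0 :=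
    g1 1 2 3 (by norm_num) (by norm_num) (by norm_num)
  have cg124 : Dg 1 2 4 - Dg 2 1 4 + Dg 4 1 2 = 0 :=
    g1 1 2 4 (by norm_num) (by norm_num) (by norm_num)
  have cg125 : Dg 1 2 5 - Dg 2 1 5 + Dg 5 1 2 = 0 :=
    g1 1 2 5 (by norm_num) (by norm_num) (by norm_num)
  have cg134 : Dg 1 3 4 - Dg 3 1 4 + Dg 4 1 3 = 0 :=
    g1 1 3 4 (by norm_num) (by norm_num) (by norm_num)
  have cg135 : Dg 1 3 5 - Dg 3 1 5 + Dg 5 1 3 = 0 :=
    g1 1 3 5 (by norm_num) (by norm_num) (by norm_num)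
  have cg145 : Dg 1 4 5 - Dg 4 1 5 + Dg 5 1 4 = 0 :=
    g1 1 4 5 (by norm_num) (by norm_num) (by norm_num)
  have cg234 : Dg 2 3 4 - Dg 3 2 4 + Dg 4 2 3 = 0 :=
    g1 2 3 4 (by norm_num) (by norm_num) (by norm_num)
  have cg235 : Dg 2 3 5 - Dg 3 2 5 + Dg 5 2 3 = 0 :=
    g1 2 3 5 (by norm_num) (by norm_num) (by norm_num)
  have cg245 : Dg 2 4 5 - Dg 4 2 5 + Dg 5 2 4 = 0 :=
    g1 2 4 5 (by norm_num) (by norm_num) (by norm_num)
  have cg345 : Dg 3 4 5 - Dg 4 3 5 + Dg 5 3 4 = 0 :=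
    g1 3 4 5 (by norm_num) (by norm_num) (by norm_num)
  have ch012 : Dh 0 1 2 - Dh 1 0 2 + Dh 2 0 1 + h 1 3 = 0 := by
    have := h0 1 2 (by norm_num) (by norm_num)
    norm_num at this
    rw [hd 2] at this
    linear_combination this
  have ch013 : Dh 0 1 3 - Dh 1 0 3 + Dh 3 0 1 + h 2 3 + h 1 4 = 0 := by
    have := h0 1 3 (by norm_num) (by norm_num)
    norm_num at this
    linear_combination this
  have ch014 : Dh 0 1 4 - Dh 1 0 4 + Dh 4 0 1 + h 2 4 + h 1 5 = 0 := by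
    have := h0 1 4 (by norm_num) (by norm_num)
    norm_num at this
    linear_combination this
  have ch015 : Dh 0 1 5 - Dh 1 0 5 + Dh 5 0 1 + h 2 5 = 0 := by
    have := h0 1 5 (by norm_num) (by norm_num)
    norm_num at this
    rw [hz 1 6 (by norm_num)] at this
    linear_combination this
  have ch023 : Dh 0 2 3 - Dh 2 0 3 + Dh 3 0 2 + h 2 4 = 0 := by
    have := h0 2 3 (by norm_num) (by norm_num)
    norm_num at this
    rw [hd 3] at this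
    linear_combination this
  have ch024 : Dh 0 2 4 - Dh 2 0 4 + Dh 4 0 2 + h 3 4 + h 2 5 = 0 := by
    have := h0 2 4 (by norm_num) (by norm_num)
    norm_num at this
    linear_combination this
  have ch025 : Dh 0 2 5 - Dh 2 0 5 + Dh 5 0 2 + h 3 5 = 0 := by
    have := h0 2 5 (by norm_num) (by norm_num)
    norm_num at this
    rw [hz 2 6 (by norm_num)] at this
    linear_combination this
  have ch034 : Dh 0 3 4 - Dh 3 0 4 + Dh 4 0 3 + h 3 5 = 0 := by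
    have := h0 3 4 (by norm_num) (by norm_num)
    norm_num at this
    rw [hd 4] at this
    linear_combination this
  have ch035 : Dh 0 3 5 - Dh 3 0 5 + Dh 5 0 3 + h 4 5 = 0 := by
    have := h0 3 5 (by norm_num) (by norm_num)
    norm_num at this
    rw [hz 3 6 (by norm_num)] at this
    linear_combination this
  have ch045 : Dh 0 4 5 - Dh 4 0 5 + Dh 5 0 4 = 0 := by
    have := h0 4 5 (by norm_num) (by norm_num)
    norm_num at this
    rw [hd 5] at this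
    rw [hz 4 6 (by norm_num)] at this
    linear_combination this
  have ch123 : Dh 1 2 3 - Dh 2 1 3 + Dh 3 1 2 = 0 :=
    h1 1 2 3 (by norm_num) (by norm_num) (by norm_num)
  have ch124 : Dh 1 2 4 - Dh 2 1 4 + Dh 4 1 2 = 0 :=
    h1 1 2 4 (by norm_num) (by norm_num) (by norm_num)
  have ch125 : Dh 1 2 5 - Dh 2 1 5 + Dh 5 1 2 = 0 :=
    h1 1 2 5 (by norm_num) (by norm_num) (by norm_num)
  have ch134 : Dh 1 3 4 - Dh 3 1 4 + Dh 4 1 3 = 0 :=
    h1 1 3 4 (by norm_num) (by norm_num) (by norm_num)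
  have ch135 : Dh 1 3 5 - Dh 3 1 5 + Dh 5 1 3 = 0 :=
    h1 1 3 5 (by norm_num) (by norm_num) (by norm_num)
  have ch145 : Dh 1 4 5 - Dh 4 1 5 + Dh 5 1 4 = 0 :=
    h1 1 4 5 (by norm_num) (by norm_num) (by norm_num)
  have ch234 : Dh 2 3 4 - Dh 3 2 4 + Dh 4 2 3 = 0 :=
    h1 2 3 4 (by norm_num) (by norm_num) (by norm_num)
  have ch235 : Dh 2 3 5 - Dh 3 2 5 + Dh 5 2 3 = 0 :=
    h1 2 3 5 (by norm_num) (by norm_num) (by norm_num)
  have ch245 : Dh 2 4 5 - Dh 4 2 5 + Dh 5 2 4 = 0 :=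
    h1 2 4 5 (by norm_num) (by norm_num) (by norm_num)
  have ch345 : Dh 3 4 5 - Dh 4 3 5 + Dh 5 3 4 = 0 :=
    h1 3 4 5 (by norm_num) (by norm_num) (by norm_num)
  simp only [W6, Q5, R]
  norm_num
  rw [b6]
  linear_combination
    (B 0 * h 4 5) * cg123
    + (B 0 * g 4 5) * ch123
    - (B 0 * h 3 5) * cg124
    - (B 0 * g 3 5) * ch124
    + (B 0 * h 3 4) * cg125
    + (B 0 * g 3 4) * ch125
    + (B 0 * h 2 5) * cg134
    + (B 0 * g 2 5) * ch134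
    - (B 0 * h 2 4) * cg135
    - (B 0 * g 2 4) * ch135
    + (B 0 * h 2 3) * cg145
    + (B 0 * g 2 3) * ch145
    - (B 0 * h 1 5) * cg234
    - (B 0 * g 1 5) * ch234
    + (B 0 * h 1 4) * cg235
    + (B 0 * g 1 4) * ch235
    - (B 0 * h 1 3) * cg245
    - (B 0 * g 1 3) * ch245
    + (B 0 * h 1 2) * cg345
    + (B 0 * g 1 2) * ch345
    - (B 1 * h 4 5) * cg023
    - (B 1 * g 4 5) * ch023
    + (B 1 * h 3 5) * cg024
    + (B 1 * g 3 5) * ch024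
    - (B 1 * h 3 4) * cg025
    - (B 1 * g 3 4) * ch025
    - (B 1 * h 2 5) * cg034
    - (B 1 * g 2 5) * ch034
    + (B 1 * h 2 4) * cg035
    + (B 1 * g 2 4) * ch035
    - (B 1 * h 2 3) * cg045
    - (B 1 * g 2 3) * ch045
    + (B 1 * h 0 5) * cg234
    + (B 1 * g 0 5) * ch234
    - (B 1 * h 0 4) * cg235
    - (B 1 * g 0 4) * ch235
    + (B 1 * h 0 3) * cg245
    + (B 1 * g 0 3) * ch245
    - (B 1 * h 0 2) * cg345
    - (B 1 * g 0 2) * ch345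
    + (B 2 * h 4 5) * cg013
    + (B 2 * g 4 5) * ch013
    - (B 2 * h 3 5) * cg014
    - (B 2 * g 3 5) * ch014
    + (B 2 * h 3 4) * cg015
    + (B 2 * g 3 4) * ch015
    + (B 2 * h 1 5) * cg034
    + (B 2 * g 1 5) * ch034
    - (B 2 * h 1 4) * cg035
    - (B 2 * g 1 4) * ch035
    + (B 2 * h 1 3) * cg045
    + (B 2 * g 1 3) * ch045
    - (B 2 * h 0 5) * cg134
    - (B 2 * g 0 5) * ch134
    + (B 2 * h 0 4) * cg135
    + (B 2 * g 0 4) * ch135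
    - (B 2 * h 0 3) * cg145
    - (B 2 * g 0 3) * ch145
    + (B 2 * h 0 1) * cg345
    + (B 2 * g 0 1) * ch345
    - (B 3 * h 4 5) * cg012
    - (B 3 * g 4 5) * ch012
    + (B 3 * h 2 5) * cg014
    + (B 3 * g 2 5) * ch014
    - (B 3 * h 2 4) * cg015
    - (B 3 * g 2 4) * ch015
    - (B 3 * h 1 5) * cg024
    - (B 3 * g 1 5) * ch024
    + (B 3 * h 1 4) * cg025
    + (B 3 * g 1 4) * ch025
    - (B 3 * h 1 2) * cg045
    - (B 3 * g 1 2) * ch045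
    + (B 3 * h 0 5) * cg124
    + (B 3 * g 0 5) * ch124
    - (B 3 * h 0 4) * cg125
    - (B 3 * g 0 4) * ch125
    + (B 3 * h 0 2) * cg145
    + (B 3 * g 0 2) * ch145
    - (B 3 * h 0 1) * cg245
    - (B 3 * g 0 1) * ch245
    + (B 4 * h 3 5) * cg012
    + (B 4 * g 3 5) * ch012
    - (B 4 * h 2 5) * cg013
    - (B 4 * g 2 5) * ch013
    + (B 4 * h 2 3) * cg015
    + (B 4 * g 2 3) * ch015
    + (B 4 * h 1 5) * cg023
    + (B 4 * g 1 5) * ch023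
    - (B 4 * h 1 3) * cg025
    - (B 4 * g 1 3) * ch025
    + (B 4 * h 1 2) * cg035
    + (B 4 * g 1 2) * ch035
    - (B 4 * h 0 5) * cg123
    - (B 4 * g 0 5) * ch123
    + (B 4 * h 0 3) * cg125
    + (B 4 * g 0 3) * ch125
    - (B 4 * h 0 2) * cg135
    - (B 4 * g 0 2) * ch135
    + (B 4 * h 0 1) * cg235
    + (B 4 * g 0 1) * ch235
    - (B 5 * h 3 4) * cg012
    - (B 5 * g 3 4) * ch012
    + (B 5 * h 2 4) * cg013
    + (B 5 * g 2 4) * ch013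
    - (B 5 * h 2 3) * cg014
    - (B 5 * g 2 3) * ch014
    - (B 5 * h 1 4) * cg023
    - (B 5 * g 1 4) * ch023
    + (B 5 * h 1 3) * cg024
    + (B 5 * g 1 3) * ch024
    - (B 5 * h 1 2) * cg034
    - (B 5 * g 1 2) * ch034
    + (B 5 * h 0 4) * cg123
    + (B 5 * g 0 4) * ch123
    - (B 5 * h 0 3) * cg124
    - (B 5 * g 0 3) * ch124
    + (B 5 * h 0 2) * cg134
    + (B 5 * g 0 2) * ch134
    - (B 5 * h 0 1) * cg234
    - (B 5 * g 0 1) * ch234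

end Pool.Agent.H10.GWNil
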