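import Pool.Agent.H10.GWNil.Frame
import Pool.Agent.H10.GWNil.StokesAlg

/-!
# Stokes' theorem for two-forms on the nilmanifold
-/

open scoped ContDiff
open MeasureTheory

namespace Pool.Agent.H10.GWNil

open Pool.Agent.H64.GW.Nil

theorem contDiff_X (k : ℕ) : ContDiff ℝ ∞ (X k) := by
  refine contDiff_pi.2 fun j => ?_
  unfold X
  split_ifs
  · exact contDiff_const
  · exact contDiff_const
  · fun_prop
  · exact contDiff_const

theorem Fn_mul {f g : G → ℂ} (hf : f ∈ Fn) (hg : g ∈ Fn) : (fun x => f x * g x) ∈ Fn :=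
  ⟨hf.1.mul hg.1, fun γ hγ x => by
    show f (mul γ x) * g (mul γ x) = f x * g x
    rw [hf.2 γ hγ, hg.2 γ hγ]⟩

theorem Fn_add {f g : G → ℂ} (hf : f ∈ Fn) (hg : g ∈ Fn) : (fun x => f x + g x) ∈ Fn :=
  Fn.add_mem hf hg

theorem Fn_sub {f g : G → ℂ} (hf : f ∈ Fn) (hg : g ∈ Fn) : (fun x => f x - g x) ∈ Fn :=
  Fn.sub_mem hf hg

theorem Fn_diff {f : G → ℂ} (hf : f ∈ Fn) (x : G) : DifferentiableAt ℝ f x :=
  (hf.1.differentiable (by simp)).differentiableAt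

theorem D_continuous {f : G → ℂ} (hf : f ∈ Fn) (k : ℕ) : Continuous (D k f) := by
  unfold D
  exact (hf.1.continuous_fderiv (by simp)).clm_apply (contDiff_X k).continuous

theorem D_mul {f g : G → ℂ} (hf : f ∈ Fn) (hg : g ∈ Fn) (k : ℕ) (x : G) :
    D k (fun y => f y * g y) x = D k f x * g x + f x * D k g x := by
  unfold D
  rw [fderiv_fun_mul (Fn_diff hf x) (Fn_diff hg x)]
  simp
  ring

theorem D_add {f g : G → ℂ} (hf : f ∈ Fn) (hg : g ∈ Fn) (k : ℕ) (x : G) :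
    D k (fun y => f y + g y) x = D k f x + D k g x := by
  unfold D
  rw [fderiv_fun_add (Fn_diff hf x) (Fn_diff hg x)]
  simp

theorem D_sub {f g : G → ℂ} (hf : f ∈ Fn) (hg : g ∈ Fn) (k : ℕ) (x : G) :
    D k (fun y => f y - g y) x = D k f x - D k g x := by
  unfold D
  rw [fderiv_fun_sub (Fn_diff hf x) (Fn_diff hg x)]
  simp

/-- `D k` of the quadratic expression `R`. -/
theorem R_mem {g h : ℕ → ℕ → G → ℂ} (hg : ∀ i j, g i j ∈ Fn) (hh : ∀ i j, h i j ∈ Fn)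
    (k l m n : ℕ) : (fun x => R (fun i j => g i j x) (fun i j => h i j x) k l m n) ∈ Fn := by
  unfold R
  exact Fn_add (Fn_sub (Fn_add (Fn_add (Fn_sub (Fn_mul (hg _ _) (hh _ _)) (Fn_mul (hg _ _) (hh _ _)))
    (Fn_mul (hg _ _) (hh _ _))) (Fn_mul (hg _ _) (hh _ _))) (Fn_mul (hg _ _) (hh _ _)))
    (Fn_mul (hg _ _) (hh _ _))

theorem D_R {g h : ℕ → ℕ → G → ℂ} (hg : ∀ i j, g i j ∈ Fn) (hh : ∀ i j, h i j ∈ Fn)
    (p k l m n : ℕ) (x : G) :
    D p (fun x => R (fun i j => g i j x) (fun i j => h i j x) k l m n) x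
      = R (fun i j => D p (g i j) x) (fun i j => h i j x) k l m n
        + R (fun i j => g i j x) (fun i j => D p (h i j) x) k l m n := by
  unfold R
  have e : ∀ a b c d, D p (fun x => g a b x * h c d x) x
      = D p (g a b) x * h c d x + g a b x * D p (h c d) x :=
    fun a b c d => D_mul (hg _ _) (hh _ _) p x
  have f : ∀ a b c d, (fun x => g a b x * h c d x) ∈ Fn := fun a b c d => Fn_mul (hg _ _) (hh _ _)
  rw [D_add (Fn_sub (Fn_add (Fn_add (Fn_sub (f _ _ _ _) (f _ _ _ _)) (f _ _ _ _)) (f _ _ _ _))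
      (f _ _ _ _)) (f _ _ _ _),
    D_sub (Fn_add (Fn_add (Fn_sub (f _ _ _ _) (f _ _ _ _)) (f _ _ _ _)) (f _ _ _ _))
      (f _ _ _ _),
    D_add (Fn_add (Fn_sub (f _ _ _ _) (f _ _ _ _)) (f _ _ _ _)) (f _ _ _ _),
    D_add (Fn_sub (f _ _ _ _) (f _ _ _ _)) (f _ _ _ _),
    D_sub (f _ _ _ _) (f _ _ _ _), e, e, e, e, e, e]
  ring

theorem Q5_mem {b : ℕ → G → ℂ} {g h : ℕ → ℕ → G → ℂ} (hb : ∀ i, b i ∈ Fn)
    (hg : ∀ i j, g i j ∈ Fn) (hh : ∀ i j, h i j ∈ Fn) (i j k l m : ℕ) :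
    (fun x => Q5 (fun i => b i x) (fun i j => g i j x) (fun i j => h i j x) i j k l m) ∈ Fn := by
  unfold Q5
  have f : ∀ i a b' c d, (fun x => b i x * R (fun i j => g i j x) (fun i j => h i j x) a b' c d)
      ∈ Fn := fun i a b' c d => Fn_mul (hb _) (R_mem hg hh _ _ _ _)
  exact Fn_add (Fn_sub (Fn_add (Fn_sub (f _ _ _ _ _) (f _ _ _ _ _)) (f _ _ _ _ _))
    (f _ _ _ _ _)) (f _ _ _ _ _)

theorem D_Q5 {b : ℕ → G → ℂ} {g h : ℕ → ℕ → G → ℂ} (hb : ∀ i, b i ∈ Fn)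
    (hg : ∀ i j, g i j ∈ Fn) (hh : ∀ i j, h i j ∈ Fn) (p i j k l m : ℕ) (x : G) :
    D p (fun x => Q5 (fun i => b i x) (fun i j => g i j x) (fun i j => h i j x) i j k l m) x
      = Q5 (fun i => D p (b i) x) (fun i j => g i j x) (fun i j => h i j x) i j k l m
        + Q5 (fun i => b i x) (fun i j => D p (g i j) x) (fun i j => h i j x) i j k l m
        + Q5 (fun i => b i x) (fun i j => g i j x) (fun i j => D p (h i j) x) i j k l m := by
  unfold Q5
  have f : ∀ i a b' c d, (fun x => b i x * R (fun i j => g i j x) (fun i j => h i j x) a b' c d)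
      ∈ Fn := fun i a b' c d => Fn_mul (hb _) (R_mem hg hh _ _ _ _)
  have e : ∀ i a b' c d, D p (fun x => b i x * R (fun i j => g i j x) (fun i j => h i j x)
      a b' c d) x = D p (b i) x * R (fun i j => g i j x) (fun i j => h i j x) a b' c d
        + b i x * (R (fun i j => D p (g i j) x) (fun i j => h i j x) a b' c d
        + R (fun i j => g i j x) (fun i j => D p (h i j) x) a b' c d) := by
    intro i a b' c d
    rw [D_mul (hb _) (R_mem hg hh _ _ _ _), D_R hg hh]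
  rw [D_add (Fn_sub (Fn_add (Fn_sub (f _ _ _ _ _) (f _ _ _ _ _)) (f _ _ _ _ _))
      (f _ _ _ _ _)) (f _ _ _ _ _),
    D_sub (Fn_add (Fn_sub (f _ _ _ _ _) (f _ _ _ _ _)) (f _ _ _ _ _)) (f _ _ _ _ _),
    D_add (Fn_sub (f _ _ _ _ _) (f _ _ _ _ _)) (f _ _ _ _ _),
    D_sub (f _ _ _ _ _) (f _ _ _ _ _), e, e, e, e, e]
  ring

theorem closed_diag {a : ℕ → ℕ → G → ℂ} (ha : Closed a) (i : ℕ) (x : G) : a i i x = 0 := by
  have h := ha.anti i i x
  linear_combination (1 / 2 : ℂ) * h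

theorem closed_zero' {a : ℕ → ℕ → G → ℂ} (ha : Closed a) {i j : ℕ} (hj : 6 ≤ j) (x : G) :
    a i j x = 0 := by
  rw [ha.zero i j hj]
  rfl

/-- The wedge product of an exact form with two closed ones is a sum of derivatives. -/
theorem W6_dd {b : ℕ → G → ℂ} {g h : ℕ → ℕ → G → ℂ} (hb : ∀ i, b i ∈ Fn) (hb6 : b 6 = 0)
    (hg : Closed g) (hh : Closed h) (x : G) :
    W6 (fun i j => dd b i j x) (fun i j => g i j x) (fun i j => h i j x)
      = D 0 (fun x => Q5 (fun i => b i x) (fun i j => g i j x) (fun i j => h i j x) 1 2 3 4 5) x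
      - D 1 (fun x => Q5 (fun i => b i x) (fun i j => g i j x) (fun i j => h i j x) 0 2 3 4 5) x
      + D 2 (fun x => Q5 (fun i => b i x) (fun i j => g i j x) (fun i j => h i j x) 0 1 3 4 5) x
      - D 3 (fun x => Q5 (fun i => b i x) (fun i j => g i j x) (fun i j => h i j x) 0 1 2 4 5) x
      + D 4 (fun x => Q5 (fun i => b i x) (fun i j => g i j x) (fun i j => h i j x) 0 1 2 3 5) x
      - D 5 (fun x => Q5 (fun i => b i x) (fun i j => g i j x) (fun i j => h i j x) 0 1 2 3 4) x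
      := by
  have h6 : b 6 x = 0 := by rw [hb6]; rfl
  have key := stokes_alg (fun i => b i x) (fun p i => D p (b i) x) (fun i j => g i j x)
    (fun i j => h i j x) (fun p i j => D p (g i j) x) (fun p i j => D p (h i j) x) h6
    (fun i => closed_diag hg i x) (fun i j hj => closed_zero' hg hj x)
    (fun j k hj hk => hg.closed₀ j k hj hk x) (fun i j k hi hj hk => hg.closed₁ i j k hi hj hk x)
    (fun i => closed_diag hh i x) (fun i j hj => closed_zero' hh hj x)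
    (fun j k hj hk => hh.closed₀ j k hj hk x) (fun i j k hi hj hk => hh.closed₁ i j k hi hj hk x)
  rw [D_Q5 hb hg.mem hh.mem, D_Q5 hb hg.mem hh.mem, D_Q5 hb hg.mem hh.mem,
    D_Q5 hb hg.mem hh.mem, D_Q5 hb hg.mem hh.mem, D_Q5 hb hg.mem hh.mem]
  exact key

/-- Stokes' theorem in coefficients. -/
theorem integral_W6_dd (hint : ∀ {f : G → ℂ}, f ∈ Fn → ∀ k, ∫ x in Set.Icc (0 : G) 1, D k f x = 0)
    {b : ℕ → G → ℂ} {g h : ℕ → ℕ → G → ℂ} (hb : ∀ i, b i ∈ Fn) (hb6 : b 6 = 0)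
    (hg : Closed g) (hh : Closed h) :
    ∫ x in Set.Icc (0 : G) 1,
      W6 (fun i j => dd b i j x) (fun i j => g i j x) (fun i j => h i j x) = 0 := by
  have hi : ∀ p i j k l m, IntegrableOn (D p (fun x => Q5 (fun i => b i x) (fun i j => g i j x)
      (fun i j => h i j x) i j k l m)) (Set.Icc (0 : G) 1) := fun p i j k l m =>
    (D_continuous (Q5_mem hb hg.mem hh.mem i j k l m) p).integrableOn_Icc
  simp only [W6_dd hb hb6 hg hh]
  rw [integral_sub, integral_add, integral_sub, integral_add, integral_sub,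
    hint (Q5_mem hb hg.mem hh.mem _ _ _ _ _), hint (Q5_mem hb hg.mem hh.mem _ _ _ _ _),
    hint (Q5_mem hb hg.mem hh.mem _ _ _ _ _), hint (Q5_mem hb hg.mem hh.mem _ _ _ _ _),
    hint (Q5_mem hb hg.mem hh.mem _ _ _ _ _), hint (Q5_mem hb hg.mem hh.mem _ _ _ _ _)]
  · simp
  · exact hi _ _ _ _ _ _
  · exact hi _ _ _ _ _ _
  · exact (hi _ _ _ _ _ _).sub (hi _ _ _ _ _ _)
  · exact hi _ _ _ _ _ _
  · exact ((hi _ _ _ _ _ _).sub (hi _ _ _ _ _ _)).add (hi _ _ _ _ _ _)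
  · exact hi _ _ _ _ _ _
  · exact (((hi _ _ _ _ _ _).sub (hi _ _ _ _ _ _)).add (hi _ _ _ _ _ _)).sub (hi _ _ _ _ _ _)
  · exact hi _ _ _ _ _ _
  · exact ((((hi _ _ _ _ _ _).sub (hi _ _ _ _ _ _)).add (hi _ _ _ _ _ _)).sub
      (hi _ _ _ _ _ _)).add (hi _ _ _ _ _ _)
  · exact hi _ _ _ _ _ _

end Pool.Agent.H10.GWNil
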