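import Pool.Agent.H64.GW.Nil.Frame

/-!
# Signed sums over the permutations of six indices
-/

namespace Pool.Agent.H10.GWNil

open Pool.Agent.H64.GW.Nil

/-- Decomposition of a signed sum over the permutations of `Fin (n + 1)` by the image of `0`. -/
theorem sum_perm_succ {n : ℕ} (F : (Fin (n + 1) → Fin (n + 1)) → ℂ) :
    ∑ σ : Equiv.Perm (Fin (n + 1)), ((Equiv.Perm.sign σ : ℤ) : ℂ) * F σ
      = ∑ p : Fin (n + 1), (-1) ^ (p : ℕ) *
          ∑ τ : Equiv.Perm (Fin n), ((Equiv.Perm.sign τ : ℤ) : ℂ) *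
            F (Fin.cons p (fun i => p.succAbove (τ i))) := by
  let e : Fin (n + 1) × Equiv.Perm (Fin n) → Equiv.Perm (Fin (n + 1)) :=
    fun q => q.1.cycleRange.symm * Equiv.Perm.decomposeFin.symm (0, q.2)
  have he0 : ∀ q, e q 0 = q.1 := by
    intro q
    simp [e, Equiv.Perm.mul_apply]
  have hes : ∀ q (i : Fin n), e q i.succ = q.1.succAbove (q.2 i) := by
    intro q i
    simp [e, Equiv.Perm.mul_apply]
  have hfun : ∀ q, (e q : Fin (n + 1) → Fin (n + 1))
      = Fin.cons q.1 (fun i => q.1.succAbove (q.2 i)) := by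
    intro q
    funext i
    refine Fin.cases ?_ (fun i => ?_) i
    · simp [he0]
    · simp [hes]
  have hsign : ∀ q, ((Equiv.Perm.sign (e q) : ℤ) : ℂ)
      = (-1) ^ (q.1 : ℕ) * ((Equiv.Perm.sign q.2 : ℤ) : ℂ) := by
    intro q
    simp [e, Fin.sign_cycleRange, Equiv.Perm.sign_symm]
  have hinj : Function.Injective e := by
    rintro ⟨p, τ⟩ ⟨p', τ'⟩ h
    have h0 : p = p' := by
      have := congrArg (fun σ : Equiv.Perm (Fin (n + 1)) => σ 0) h
      simpa [he0] using this
    subst h0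
    have : τ = τ' := by
      ext i
      have := congrArg (fun σ : Equiv.Perm (Fin (n + 1)) => σ i.succ) h
      simp only [hes] at this
      exact congrArg Fin.val (Fin.succAbove_right_injective this)
    rw [this]
  have hbij : Function.Bijective e := by
    rw [Fintype.bijective_iff_injective_and_card]
    refine ⟨hinj, ?_⟩
    simp [Fintype.card_perm, Nat.factorial_succ]
  rw [← (Equiv.ofBijective e hbij).sum_comp, Fintype.sum_prod_type]
  refine Finset.sum_congr rfl fun p _ => ?_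
  rw [Finset.mul_sum]
  refine Finset.sum_congr rfl fun τ _ => ?_
  rw [Equiv.ofBijective_apply, hsign (p, τ), hfun (p, τ)]
  ring

/-- The signed sum over the permutations of two indices. -/
theorem sum_perm_two {ι : Type*} (u : Fin 2 → ι) (c : ι → ι → ℂ) (hc : ∀ i j, c i j = -c j i) :
    ∑ τ : Equiv.Perm (Fin 2), ((Equiv.Perm.sign τ : ℤ) : ℂ) * c (u (τ 0)) (u (τ 1))
      = 2 * c (u 0) (u 1) := by
  have h := sum_perm_succ (n := 1) (fun s => c (u (s 0)) (u (s 1)))
  rw [h]
  have h1 : ∀ (p : Fin 2) (τ : Equiv.Perm (Fin 1)),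
      (Fin.cons p (fun i => p.succAbove (τ i)) : Fin 2 → Fin 2) 1 = p.succAbove 0 := by
    intro p τ
    have : τ 0 = 0 := Subsingleton.elim _ _
    show p.succAbove (τ 0) = _
    rw [this]
  simp only [h1, Fin.cons_zero, Fintype.sum_unique]
  have h2 : (0 : Fin 2).succAbove 0 = 1 := by decide
  have h3 : (1 : Fin 2).succAbove 0 = 0 := by decide
  have h4 : (Fin.succ 0 : Fin 2) = 1 := rfl
  rw [Fin.sum_univ_succ]
  simp only [Fin.sum_univ_succ, Finset.univ_eq_empty, Finset.sum_empty, h2, h3, h4]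
  rw [hc (u 1) (u 0)]
  simp
  ring

/-- The quadratic expression appearing in the wedge product of two two-forms. -/
def R {ι : Type*} (b c : ι → ι → ℂ) (k l m n : ι) : ℂ :=
  b k l * c m n - b k m * c l n + b k n * c l m + b l m * c k n - b l n * c k m + b m n * c k l

/-- The signed sum over the permutations of four indices. -/
theorem sum_perm_four {ι : Type*} (u : Fin 4 → ι) (b c : ι → ι → ℂ)
    (hb : ∀ i j, b i j = -b j i) (hc : ∀ i j, c i j = -c j i) :
    ∑ τ : Equiv.Perm (Fin 4), ((Equiv.Perm.sign τ : ℤ) : ℂ) *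
      (b (u (τ 0)) (u (τ 1)) * c (u (τ 2)) (u (τ 3)))
      = 4 * R b c (u 0) (u 1) (u 2) (u 3) := by
  have h := sum_perm_succ (n := 3) (fun s => b (u (s 0)) (u (s 1)) * c (u (s 2)) (u (s 3)))
  rw [h]
  have h3 : ∀ p : Fin 4, ∑ τ : Equiv.Perm (Fin 3), ((Equiv.Perm.sign τ : ℤ) : ℂ) *
      (b (u p) (u (p.succAbove (τ 0))) *
        c (u (p.succAbove (τ 1))) (u (p.succAbove (τ 2))))
      = 2 * (b (u p) (u (p.succAbove 0)) * c (u (p.succAbove 1)) (u (p.succAbove 2))
        - b (u p) (u (p.succAbove 1)) * c (u (p.succAbove 0)) (u (p.succAbove 2))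
        + b (u p) (u (p.succAbove 2)) * c (u (p.succAbove 0)) (u (p.succAbove 1))) := by
    intro p
    have h := sum_perm_succ (n := 2) (fun s => b (u p) (u (p.succAbove (s 0))) *
        c (u (p.succAbove (s 1))) (u (p.succAbove (s 2))))
    rw [h]
    have h2 : ∀ q : Fin 3, ∑ τ : Equiv.Perm (Fin 2), ((Equiv.Perm.sign τ : ℤ) : ℂ) *
        (b (u p) (u (p.succAbove q)) *
          c (u (p.succAbove (q.succAbove (τ 0)))) (u (p.succAbove (q.succAbove (τ 1)))))
        = 2 * (b (u p) (u (p.succAbove q)) *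
          c (u (p.succAbove (q.succAbove 0))) (u (p.succAbove (q.succAbove 1)))) := by
      intro q
      have := sum_perm_two (fun i => u (p.succAbove (q.succAbove i))) c hc
      simp only [mul_left_comm _ (b _ _), ← Finset.mul_sum]
      rw [this]
    have e : ∀ q : Fin 3, ∑ τ : Equiv.Perm (Fin 2), ((Equiv.Perm.sign τ : ℤ) : ℂ) *
        (b (u p) (u (p.succAbove
          ((Fin.cons q (fun i => q.succAbove (τ i)) : Fin 3 → Fin 3) 0))) *
          c (u (p.succAbove ((Fin.cons q (fun i => q.succAbove (τ i)) : Fin 3 → Fin 3) 1)))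
            (u (p.succAbove ((Fin.cons q (fun i => q.succAbove (τ i)) : Fin 3 → Fin 3) 2))))
        = 2 * (b (u p) (u (p.succAbove q)) *
          c (u (p.succAbove (q.succAbove 0))) (u (p.succAbove (q.succAbove 1)))) := h2
    rw [Finset.sum_congr rfl fun q _ => by rw [e q]]
    have s1 : (0 : Fin 3).succAbove 0 = 1 := by decide
    have s2 : (0 : Fin 3).succAbove 1 = 2 := by decide
    have s3 : (1 : Fin 3).succAbove 0 = 0 := by decide
    have s4 : (1 : Fin 3).succAbove 1 = 2 := by decide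
    have s5 : (2 : Fin 3).succAbove 0 = 0 := by decide
    have s6 : (2 : Fin 3).succAbove 1 = 1 := by decide
    rw [Fin.sum_univ_three]
    rw [s1, s2, s3, s4, s5, s6]
    simp
    ring
  have e : ∀ p : Fin 4, ∑ τ : Equiv.Perm (Fin 3), ((Equiv.Perm.sign τ : ℤ) : ℂ) *
      (b (u ((Fin.cons p (fun i => p.succAbove (τ i)) : Fin 4 → Fin 4) 0))
        (u ((Fin.cons p (fun i => p.succAbove (τ i)) : Fin 4 → Fin 4) 1)) *
        c (u ((Fin.cons p (fun i => p.succAbove (τ i)) : Fin 4 → Fin 4) 2))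
        (u ((Fin.cons p (fun i => p.succAbove (τ i)) : Fin 4 → Fin 4) 3)))
      = 2 * (b (u p) (u (p.succAbove 0)) * c (u (p.succAbove 1)) (u (p.succAbove 2))
        - b (u p) (u (p.succAbove 1)) * c (u (p.succAbove 0)) (u (p.succAbove 2))
        + b (u p) (u (p.succAbove 2)) * c (u (p.succAbove 0)) (u (p.succAbove 1))) := h3
  rw [Finset.sum_congr rfl fun q _ => by rw [e q]]
  rw [Fin.sum_univ_four]
  have s10 : (0 : Fin 4).succAbove 0 = 1 := by decide
  have s11 : (0 : Fin 4).succAbove 1 = 2 := by decide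
  have s12 : (0 : Fin 4).succAbove 2 = 3 := by decide
  have s20 : (1 : Fin 4).succAbove 0 = 0 := by decide
  have s21 : (1 : Fin 4).succAbove 1 = 2 := by decide
  have s22 : (1 : Fin 4).succAbove 2 = 3 := by decide
  have s30 : (2 : Fin 4).succAbove 0 = 0 := by decide
  have s31 : (2 : Fin 4).succAbove 1 = 1 := by decide
  have s32 : (2 : Fin 4).succAbove 2 = 3 := by decide
  have s40 : (3 : Fin 4).succAbove 0 = 0 := by decide
  have s41 : (3 : Fin 4).succAbove 1 = 1 := by decide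
  have s42 : (3 : Fin 4).succAbove 2 = 2 := by decide
  rw [s10, s11, s12,
    s20, s21, s22, s30, s31, s32,
    s40, s41, s42]
  rw [hb (u 1) (u 0), hb (u 2) (u 0), hb (u 2) (u 1), hb (u 3) (u 0), hb (u 3) (u 1),
    hb (u 3) (u 2)]
  simp only [R, Fin.val_zero, Fin.val_one, Fin.val_two, pow_zero, pow_one]
  have : ((3 : Fin 4) : ℕ) = 3 := rfl
  rw [this]
  ring

/-- The coefficient of the wedge product of three two-forms with coefficients `a`, `b`, `c`. -/
def W {ι : Type*} (a b c : ι → ι → ℂ) (u : Fin 6 → ι) : ℂ :=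
  a (u 0) (u 1) * R b c (u 2) (u 3) (u 4) (u 5)
    - a (u 0) (u 2) * R b c (u 1) (u 3) (u 4) (u 5)
    + a (u 0) (u 3) * R b c (u 1) (u 2) (u 4) (u 5)
    - a (u 0) (u 4) * R b c (u 1) (u 2) (u 3) (u 5)
    + a (u 0) (u 5) * R b c (u 1) (u 2) (u 3) (u 4)
    + a (u 1) (u 2) * R b c (u 0) (u 3) (u 4) (u 5)
    - a (u 1) (u 3) * R b c (u 0) (u 2) (u 4) (u 5)
    + a (u 1) (u 4) * R b c (u 0) (u 2) (u 3) (u 5)
    - a (u 1) (u 5) * R b c (u 0) (u 2) (u 3) (u 4)
    + a (u 2) (u 3) * R b c (u 0) (u 1) (u 4) (u 5)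
    - a (u 2) (u 4) * R b c (u 0) (u 1) (u 3) (u 5)
    + a (u 2) (u 5) * R b c (u 0) (u 1) (u 3) (u 4)
    + a (u 3) (u 4) * R b c (u 0) (u 1) (u 2) (u 5)
    - a (u 3) (u 5) * R b c (u 0) (u 1) (u 2) (u 4)
    + a (u 4) (u 5) * R b c (u 0) (u 1) (u 2) (u 3)

/-- The signed sum over the permutations of six indices. -/
theorem sum_perm_six {ι : Type*} (u : Fin 6 → ι) (a b c : ι → ι → ℂ)
    (ha : ∀ i j, a i j = -a j i) (hb : ∀ i j, b i j = -b j i) (hc : ∀ i j, c i j = -c j i) :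
    ∑ σ : Equiv.Perm (Fin 6), ((Equiv.Perm.sign σ : ℤ) : ℂ) *
      (a (u (σ 0)) (u (σ 1)) * (b (u (σ 2)) (u (σ 3)) * c (u (σ 4)) (u (σ 5))))
      = 8 * W a b c u := by
  have h := sum_perm_succ (n := 5) (fun s => a (u (s 0)) (u (s 1)) *
    (b (u (s 2)) (u (s 3)) * c (u (s 4)) (u (s 5))))
  rw [h]
  have h3 : ∀ p : Fin 6, ∑ τ : Equiv.Perm (Fin 5), ((Equiv.Perm.sign τ : ℤ) : ℂ) *
      (a (u p) (u (p.succAbove (τ 0))) *
        (b (u (p.succAbove (τ 1))) (u (p.succAbove (τ 2))) *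
          c (u (p.succAbove (τ 3))) (u (p.succAbove (τ 4)))))
      = ∑ q : Fin 5, (-1) ^ (q : ℕ) * (a (u p) (u (p.succAbove q)) *
        (4 * R b c (u (p.succAbove (q.succAbove 0))) (u (p.succAbove (q.succAbove 1)))
          (u (p.succAbove (q.succAbove 2))) (u (p.succAbove (q.succAbove 3))))) := by
    intro p
    have h := sum_perm_succ (n := 4) (fun s => a (u p) (u (p.succAbove (s 0))) *
        (b (u (p.succAbove (s 1))) (u (p.succAbove (s 2))) *
          c (u (p.succAbove (s 3))) (u (p.succAbove (s 4)))))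
    rw [h]
    have h2 : ∀ q : Fin 5, ∑ τ : Equiv.Perm (Fin 4), ((Equiv.Perm.sign τ : ℤ) : ℂ) *
        (a (u p) (u (p.succAbove q)) *
          (b (u (p.succAbove (q.succAbove (τ 0)))) (u (p.succAbove (q.succAbove (τ 1)))) *
            c (u (p.succAbove (q.succAbove (τ 2)))) (u (p.succAbove (q.succAbove (τ 3))))))
        = (a (u p) (u (p.succAbove q)) *
        (4 * R b c (u (p.succAbove (q.succAbove 0))) (u (p.succAbove (q.succAbove 1)))
          (u (p.succAbove (q.succAbove 2))) (u (p.succAbove (q.succAbove 3))))) := by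
      intro q
      have := sum_perm_four (fun i => u (p.succAbove (q.succAbove i))) b c hb hc
      simp only [mul_left_comm _ (a _ _), ← Finset.mul_sum]
      rw [this]
    refine Finset.sum_congr rfl fun q _ => ?_
    exact congrArg _ (h2 q)
  have e : ∀ p : Fin 6, ∑ τ : Equiv.Perm (Fin 5), ((Equiv.Perm.sign τ : ℤ) : ℂ) *
      (a (u ((Fin.cons p (fun i => p.succAbove (τ i)) : Fin 6 → Fin 6) 0))
        (u ((Fin.cons p (fun i => p.succAbove (τ i)) : Fin 6 → Fin 6) 1)) *
        (b (u ((Fin.cons p (fun i => p.succAbove (τ i)) : Fin 6 → Fin 6) 2))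
        (u ((Fin.cons p (fun i => p.succAbove (τ i)) : Fin 6 → Fin 6) 3)) *
        c (u ((Fin.cons p (fun i => p.succAbove (τ i)) : Fin 6 → Fin 6) 4))
        (u ((Fin.cons p (fun i => p.succAbove (τ i)) : Fin 6 → Fin 6) 5))))
      = ∑ q : Fin 5, (-1) ^ (q : ℕ) * (a (u p) (u (p.succAbove q)) *
        (4 * R b c (u (p.succAbove (q.succAbove 0))) (u (p.succAbove (q.succAbove 1)))
          (u (p.succAbove (q.succAbove 2))) (u (p.succAbove (q.succAbove 3))))) := h3
  rw [Finset.sum_congr rfl fun q _ => by rw [e q]]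
  have s00 : (0 : Fin 6).succAbove 0 = 1 := by decide
  have s01 : (0 : Fin 6).succAbove 1 = 2 := by decide
  have s02 : (0 : Fin 6).succAbove 2 = 3 := by decide
  have s03 : (0 : Fin 6).succAbove 3 = 4 := by decide
  have s04 : (0 : Fin 6).succAbove 4 = 5 := by decide
  have s10 : (1 : Fin 6).succAbove 0 = 0 := by decide
  have s11 : (1 : Fin 6).succAbove 1 = 2 := by decide
  have s12 : (1 : Fin 6).succAbove 2 = 3 := by decide
  have s13 : (1 : Fin 6).succAbove 3 = 4 := by decide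
  have s14 : (1 : Fin 6).succAbove 4 = 5 := by decide
  have s20 : (2 : Fin 6).succAbove 0 = 0 := by decide
  have s21 : (2 : Fin 6).succAbove 1 = 1 := by decide
  have s22 : (2 : Fin 6).succAbove 2 = 3 := by decide
  have s23 : (2 : Fin 6).succAbove 3 = 4 := by decide
  have s24 : (2 : Fin 6).succAbove 4 = 5 := by decide
  have s30 : (3 : Fin 6).succAbove 0 = 0 := by decide
  have s31 : (3 : Fin 6).succAbove 1 = 1 := by decide
  have s32 : (3 : Fin 6).succAbove 2 = 2 := by decide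
  have s33 : (3 : Fin 6).succAbove 3 = 4 := by decide
  have s34 : (3 : Fin 6).succAbove 4 = 5 := by decide
  have s40 : (4 : Fin 6).succAbove 0 = 0 := by decide
  have s41 : (4 : Fin 6).succAbove 1 = 1 := by decide
  have s42 : (4 : Fin 6).succAbove 2 = 2 := by decide
  have s43 : (4 : Fin 6).succAbove 3 = 3 := by decide
  have s44 : (4 : Fin 6).succAbove 4 = 5 := by decide
  have s50 : (5 : Fin 6).succAbove 0 = 0 := by decide
  have s51 : (5 : Fin 6).succAbove 1 = 1 := by decide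
  have s52 : (5 : Fin 6).succAbove 2 = 2 := by decide
  have s53 : (5 : Fin 6).succAbove 3 = 3 := by decide
  have s54 : (5 : Fin 6).succAbove 4 = 4 := by decide
  have t00 : (0 : Fin 5).succAbove 0 = 1 := by decide
  have t01 : (0 : Fin 5).succAbove 1 = 2 := by decide
  have t02 : (0 : Fin 5).succAbove 2 = 3 := by decide
  have t03 : (0 : Fin 5).succAbove 3 = 4 := by decide
  have t10 : (1 : Fin 5).succAbove 0 = 0 := by decide
  have t11 : (1 : Fin 5).succAbove 1 = 2 := by decide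
  have t12 : (1 : Fin 5).succAbove 2 = 3 := by decide
  have t13 : (1 : Fin 5).succAbove 3 = 4 := by decide
  have t20 : (2 : Fin 5).succAbove 0 = 0 := by decide
  have t21 : (2 : Fin 5).succAbove 1 = 1 := by decide
  have t22 : (2 : Fin 5).succAbove 2 = 3 := by decide
  have t23 : (2 : Fin 5).succAbove 3 = 4 := by decide
  have t30 : (3 : Fin 5).succAbove 0 = 0 := by decide
  have t31 : (3 : Fin 5).succAbove 1 = 1 := by decide
  have t32 : (3 : Fin 5).succAbove 2 = 2 := by decide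
  have t33 : (3 : Fin 5).succAbove 3 = 4 := by decide
  have t40 : (4 : Fin 5).succAbove 0 = 0 := by decide
  have t41 : (4 : Fin 5).succAbove 1 = 1 := by decide
  have t42 : (4 : Fin 5).succAbove 2 = 2 := by decide
  have t43 : (4 : Fin 5).succAbove 3 = 3 := by decide
  rw [Fin.sum_univ_six]
  simp only [Fin.sum_univ_five]
  simp only [s00, s01, s02, s03, s04, s10, s11, s12, s13, s14,
    s20, s21, s22, s23, s24, s30, s31, s32, s33, s34,
    s40, s41, s42, s43, s44, s50, s51, s52, s53, s54,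
    t00, t01, t02, t03, t10, t11, t12, t13,
    t20, t21, t22, t23, t30, t31, t32, t33, t40, t41, t42, t43]
  rw [ha (u 1) (u 0), ha (u 2) (u 0), ha (u 2) (u 1), ha (u 3) (u 0), ha (u 3) (u 1),
    ha (u 3) (u 2), ha (u 4) (u 0), ha (u 4) (u 1), ha (u 4) (u 2), ha (u 4) (u 3),
    ha (u 5) (u 0), ha (u 5) (u 1), ha (u 5) (u 2), ha (u 5) (u 3), ha (u 5) (u 4)]
  have v0 : ((0 : Fin 6) : ℕ) = 0 := rfl
  have v1 : ((1 : Fin 6) : ℕ) = 1 := rfl
  have v2 : ((2 : Fin 6) : ℕ) = 2 := rfl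
  have v3 : ((3 : Fin 6) : ℕ) = 3 := rfl
  have v4 : ((4 : Fin 6) : ℕ) = 4 := rfl
  have v5 : ((5 : Fin 6) : ℕ) = 5 := rfl
  have w0 : ((0 : Fin 5) : ℕ) = 0 := rfl
  have w1 : ((1 : Fin 5) : ℕ) = 1 := rfl
  have w2 : ((2 : Fin 5) : ℕ) = 2 := rfl
  have w3 : ((3 : Fin 5) : ℕ) = 3 := rfl
  have w4 : ((4 : Fin 5) : ℕ) = 4 := rfl
  rw [v0, v1, v2, v3, v4, v5, w0, w1, w2, w3, w4]
  unfold W
  ring

end Pool.Agent.H10.GWNil
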